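import Mathlib
import Pool.Agent.Results.MP_d9033c_gt.CHNo
import Pool.Agent.Helper292.ForceCH

/-!
# It is consistent with ZFC that `(Ω choose T)` is not equal to `(Ω choose Γ)`

The forcing language is the one of `Helper292.ForceCH`: a sentence is the set of the conditions
which force it; `CHHolds P` says that `ω₁` many subsets of `ℕ` are all subsets of `ℕ`.
-/

set_option autoImplicit false

namespace Pool.Agent.Results.MP_d9033c_gt.ForcedNo

open Set Cardinal Pool.Agent.Helper292.ForceCH
open Pool.Agent.H85.TauDefs Pool.Agent.H83.TwDefs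

/-- (1) Some forcing notion forces that `ω₁` is preserved and that the continuum hypothesis holds.
(2) The continuum hypothesis implies that there is a set of reals all of whose open `ω`-covers
contain `τ`-covers, but not all of whose open `ω`-covers contain `γ`-covers. -/
theorem result :
    (∃ (P : Type) (_ : Preorder P), Nonempty P ∧ ∀ p : P,
      p ∈ OmegaOnePreserved P ∧ p ∈ CHHolds P) ∧
    ((ℵ₁ : Cardinal.{0}) = 𝔠 →
      ∃ X : Set ℝ, Choose (Omega X) (Tau X) ∧ ¬ Choose (Omega X) (Gamma X)) := by
  refine ⟨?_, fun h => CHNo.result h.symm⟩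
  · obtain ⟨P, i, h1, h2⟩ := exists_forcing
    exact ⟨P, i, h1, fun p => ⟨(h2 p).1, (h2 p).2.2⟩⟩

end Pool.Agent.Results.MP_d9033c_gt.ForcedNo
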